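import Mathlib

/-!
# Strong o-conjugacy is not transitive in regular semigroups

In the full transformation monoid of a countable set there are `a ∼ b ∼ c` (strongly o-conjugate)
with `a ≁ c`.
-/

namespace Pool.Agent.Results.MP_d6d41b_al.StrongOConjugacyNotTransitive

/-- Strong o-conjugacy in a monoid `S` (so that `S¹ = S`): there are mutually inverse `g, h` with
`a g = g b` and `b h = h a`. -/
def SO {S : Type*} [Monoid S] (a b : S) : Prop :=
  ∃ g h : S, g * h * g = g ∧ h * g * h = h ∧ a * g = g * b ∧ b * h = h * a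

/-- The comb: a ray `(n, 0) → (n + 1, 0)` with an incoming path of length `2 n + d` attached at
`(n, 0)` (and further sources pointing to `(n + 1, 0)`). -/
def comb (d : ℕ) (p : ℕ × ℕ) : ℕ × ℕ :=
  if 1 ≤ p.2 ∧ p.2 ≤ 2 * p.1 + d then (p.1, p.2 - 1) else (p.1 + 1, 0)

theorem comb_zero (d n : ℕ) : comb d (n, 0) = (n + 1, 0) := by simp [comb]

theorem comb_iter_zero (d n t : ℕ) : (comb d)^[t] (n, 0) = (n + t, 0) := by
  induction t with
  | zero => rfl
  | succ t ih => rw [Function.iterate_succ_apply', ih, comb_zero]; rfl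

/-- going down a tooth -/
theorem comb_iter_tooth (d n i j : ℕ) (hj : i + j ≤ 2 * n + d) :
    (comb d)^[i] (n, i + j) = (n, j) := by
  induction i generalizing j with
  | zero => simp
  | succ i ih =>
    rw [Function.iterate_succ_apply]
    have : comb d (n, i + 1 + j) = (n, i + j) := by
      simp only [comb]
      rw [if_pos ⟨by omega, hj⟩]
      congr 1
      omega
    rw [this]
    exact ih j (by omega)

/-- every point reaches the ray -/
theorem reach (d : ℕ) (p : ℕ × ℕ) : ∃ N M, 1 ≤ N ∧ (comb d)^[N] p = (M, 0) := by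
  obtain ⟨n, i⟩ := p
  by_cases h : 1 ≤ i ∧ i ≤ 2 * n + d
  · exact ⟨i, n, h.1, by simpa using comb_iter_tooth d n i 0 (by omega)⟩
  · exact ⟨1, n + 1, le_rfl, by simp [comb, h]⟩

/-- depth bound -/
theorem depth (d i : ℕ) (p : ℕ × ℕ) (m : ℕ) (h : (comb d)^[i] p = (m, 0)) (hi : 1 ≤ i) (hm : 1 ≤ m) :
    i ≤ 2 * m + d := by
  obtain ⟨n, j⟩ := p
  by_cases hj : 1 ≤ j ∧ j ≤ 2 * n + d
  · rcases le_or_gt j i with hji | hji
    · obtain ⟨t, rfl⟩ := Nat.exists_eq_add_of_le hji
      rw [Nat.add_comm j t, Function.iterate_add_apply] at h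
      have h1 := comb_iter_tooth d n j 0 (by omega)
      simp only [add_zero] at h1
      rw [h1, comb_iter_zero] at h
      have := (Prod.mk.inj h).1
      omega
    · obtain ⟨t, rfl⟩ := Nat.exists_eq_add_of_lt hji
      have h1 := comb_iter_tooth d n i (t + 1) (by omega)
      rw [show i + (t + 1) = i + t + 1 by ring] at h1
      rw [h1] at h
      have := (Prod.mk.inj h).2
      omega
  · obtain ⟨t, rfl⟩ : ∃ t, i = t + 1 := ⟨i - 1, by omega⟩
    rw [Function.iterate_succ_apply] at h
    have h1 : comb d (n, j) = (n + 1, 0) := by simp [comb, hj]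
    rw [h1, comb_iter_zero] at h
    have := (Prod.mk.inj h).1
    omega

/-- The underlying set. -/
abbrev X := Bool × ℕ × ℕ

/-- the comb with teeth of length `2 n` -/
def fa' : X → X := fun x => (false, comb 0 x.2)

/-- the comb with teeth of length `2 n + 1` -/
def fc' : X → X := fun x => (true, comb 1 x.2)

/-- `fa'` as an element of the full transformation monoid -/
def fa : Function.End X := fa'

/-- `fc'` as an element of the full transformation monoid -/
def fc : Function.End X := fc'

/-- the disjoint union of the two combs -/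
def fb : Function.End X := fun x => (x.1, comb (if x.1 then 1 else 0) x.2)

/-- homomorphism from the second comb to the first -/
def psi (p : ℕ × ℕ) : ℕ × ℕ := (p.1 + 1, if p.2 ≤ 2 * p.1 + 1 then p.2 else 0)

/-- homomorphism from the first comb to the second -/
def chi (p : ℕ × ℕ) : ℕ × ℕ := (p.1, if p.2 ≤ 2 * p.1 then p.2 else 0)

theorem psi_comb (p : ℕ × ℕ) : psi (comb 1 p) = comb 0 (psi p) := by
  obtain ⟨n, i⟩ := p
  by_cases h : 1 ≤ i ∧ i ≤ 2 * n + 1
  · have h1 : comb 1 (n, i) = (n, i - 1) := by simp [comb, h]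
    have h2 : psi (n, i) = (n + 1, i) := by simp [psi, h.2]
    have h3 : comb 0 (n + 1, i) = (n + 1, i - 1) := by
      simp only [comb]; rw [if_pos ⟨h.1, by omega⟩]
    rw [h1, h2, h3]
    simp only [psi]; rw [if_pos (by omega)]
  · have h1 : comb 1 (n, i) = (n + 1, 0) := by simp [comb, h]
    have h2 : psi (n, i) = (n + 1, 0) := by
      simp only [psi]
      split_ifs with h3
      · have : i = 0 := by omega
        rw [this]
      · rfl
    rw [h1, h2, comb_zero]
    simp [psi]

theorem chi_comb (p : ℕ × ℕ) : chi (comb 0 p) = comb 1 (chi p) := by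
  obtain ⟨n, i⟩ := p
  by_cases h : 1 ≤ i ∧ i ≤ 2 * n
  · have h1 : comb 0 (n, i) = (n, i - 1) := by simp [comb, h]
    have h2 : chi (n, i) = (n, i) := by simp [chi, h.2]
    have h3 : comb 1 (n, i) = (n, i - 1) := by
      simp only [comb]; rw [if_pos ⟨h.1, by omega⟩]
    rw [h1, h2, h3]
    simp only [chi]; rw [if_pos (by omega)]
  · have h1 : comb 0 (n, i) = (n + 1, 0) := by simp [comb, h]
    have h2 : chi (n, i) = (n, 0) := by
      simp only [chi]
      split_ifs with h3
      · have : i = 0 := by omega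
        rw [this]
      · rfl
    rw [h1, h2, comb_zero]
    simp [chi]

theorem so_ab : SO fa fb := by
  refine ⟨fun x => (false, if x.1 then psi x.2 else x.2), fun x => (false, x.2), ?_, ?_, ?_, ?_⟩
  · funext x; rfl
  · funext x; rfl
  · funext x
    obtain ⟨s, p⟩ := x
    cases s
    · rfl
    · exact Prod.ext rfl (psi_comb p).symm
  · funext x; rfl

theorem so_bc : SO fb fc := by
  refine ⟨fun x => (true, x.2), fun x => (true, if x.1 then x.2 else chi x.2), ?_, ?_, ?_, ?_⟩
  · funext x; rfl
  · funext x; rfl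
  · funext x; rfl
  · funext x
    obtain ⟨s, p⟩ := x
    cases s
    · exact Prod.ext rfl (chi_comb p).symm
    · rfl

theorem fa_iter (t : ℕ) (s : Bool) (p : ℕ × ℕ) (ht : 1 ≤ t) :
    fa'^[t] (s, p) = (false, (comb 0)^[t] p) := by
  obtain ⟨t, rfl⟩ : ∃ u, t = u + 1 := ⟨t - 1, by omega⟩
  clear ht
  induction t with
  | zero => rfl
  | succ t ih => rw [Function.iterate_succ_apply', ih, Function.iterate_succ_apply' (comb 0) (t + 1)]; rfl

theorem fc_iter (t : ℕ) (s : Bool) (p : ℕ × ℕ) (ht : 1 ≤ t) :
    fc'^[t] (s, p) = (true, (comb 1)^[t] p) := by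
  obtain ⟨t, rfl⟩ : ∃ u, t = u + 1 := ⟨t - 1, by omega⟩
  clear ht
  induction t with
  | zero => rfl
  | succ t ih => rw [Function.iterate_succ_apply', ih, Function.iterate_succ_apply' (comb 1) (t + 1)]; rfl

theorem not_so_ac : ¬ SO fa fc := by
  rintro ⟨g, h, h1, -, h3, h4⟩
  have hg : Function.Semiconj g fc' fa' := fun x => (congrFun h3 x).symm
  have hh : Function.Semiconj h fa' fc' := fun x => (congrFun h4 x).symm
  -- `h` maps the ray to the ray
  have key1 : ∃ N M, ∀ t, h (false, (N + t, 0)) = (true, (M + t, 0)) := by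
    obtain ⟨N, M, hN, hM⟩ := reach 1 (h (false, (0, 0))).2
    refine ⟨N, M, fun t => ?_⟩
    have e1 := (hh.iterate_right (N + t)) (false, (0, 0))
    rw [fa_iter _ _ _ (by omega), comb_iter_zero, zero_add] at e1
    rw [e1, show h (false, (0, 0)) = ((h (false, (0, 0))).1, (h (false, (0, 0))).2) from rfl,
      fc_iter _ _ _ (by omega), Nat.add_comm N t, Function.iterate_add_apply, hM, comb_iter_zero]
  have key2 : ∃ N M, ∀ t, g (true, (N + t, 0)) = (false, (M + t, 0)) := by
    obtain ⟨N, M, hN, hM⟩ := reach 0 (g (true, (0, 0))).2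
    refine ⟨N, M, fun t => ?_⟩
    have e1 := (hg.iterate_right (N + t)) (true, (0, 0))
    rw [fc_iter _ _ _ (by omega), comb_iter_zero, zero_add] at e1
    rw [e1, show g (true, (0, 0)) = ((g (true, (0, 0))).1, (g (true, (0, 0))).2) from rfl,
      fa_iter _ _ _ (by omega), Nat.add_comm N t, Function.iterate_add_apply, hM, comb_iter_zero]
  obtain ⟨N, M, k1⟩ := key1
  obtain ⟨N', M', k2⟩ := key2
  -- `g h` fixes the far part of the ray
  have hgh : ∀ x, g (h (g x)) = g x := fun x => congrFun h1 x
  have hκ : M + M' = N + N' := by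
    -- take a far point of the ray
    have e1 := hgh (true, (N' + (N + N + M + M'), 0))
    rw [k2, show M' + (N + N + M + M') = N + (M' + N + M + M') by ring, k1,
      show M + (M' + N + M + M') = M + M' + N + M + M' by ring] at e1
    rcases le_total N' (M + M' + N + M + M') with hle | hle
    · obtain ⟨u, hu⟩ := Nat.exists_eq_add_of_le hle
      rw [hu, k2] at e1
      have := (Prod.mk.inj (Prod.mk.inj e1).2).1
      omega
    · -- choose a farther point
      have e2 := hgh (true, (N' + (N + N'), 0))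
      rw [k2, show M' + (N + N') = N + (M' + N') by ring, k1,
        show M + (M' + N') = N' + (M + M') by ring, k2] at e2
      have := (Prod.mk.inj (Prod.mk.inj e2).2).1
      omega
  -- depth of the ray points
  have d1 : N ≤ M := by
    have e1 := (hh.iterate_right (2 * (N + 1))) (false, (N + 1, 2 * (N + 1)))
    rw [fa_iter _ _ _ (by omega)] at e1
    have e2 := comb_iter_tooth 0 (N + 1) (2 * (N + 1)) 0 (by omega)
    simp only [add_zero] at e2
    rw [e2, k1, show h (false, (N + 1, 2 * (N + 1))) = ((h (false, (N + 1, 2 * (N + 1)))).1,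
      (h (false, (N + 1, 2 * (N + 1)))).2) from rfl, fc_iter _ _ _ (by omega)] at e1
    have := depth 1 _ _ _ (Prod.mk.inj e1).2.symm (by omega) (by omega)
    omega
  have d2 : M < N := by
    -- `g` maps `(M + t, 0)` to `(N + t, 0)` for large `t`
    have e1 := (hg.iterate_right (2 * (M + N' + 1) + 1))
      (true, (M + N' + 1, 2 * (M + N' + 1) + 1))
    rw [fc_iter _ _ _ (by omega)] at e1
    have e2 := comb_iter_tooth 1 (M + N' + 1) (2 * (M + N' + 1) + 1) 0 (by omega)
    simp only [add_zero] at e2
    rw [e2, show M + N' + 1 = N' + (M + 1) by ring, k2,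
      show g (true, (N' + (M + 1), 2 * (N' + (M + 1)) + 1))
        = ((g (true, (N' + (M + 1), 2 * (N' + (M + 1)) + 1))).1,
          (g (true, (N' + (M + 1), 2 * (N' + (M + 1)) + 1))).2) from rfl,
      fa_iter _ _ _ (by omega)] at e1
    have := depth 0 _ _ _ (Prod.mk.inj e1).2.symm (by omega) (by omega)
    omega
  omega

/-- **Main result**: strong o-conjugacy is not transitive in some regular monoid. -/
theorem result : ∃ (S : Type) (_ : Monoid S), (∀ x : S, ∃ y : S, x * y * x = x) ∧
    ∃ a b c : S, SO a b ∧ SO b c ∧ ¬ SO a c := by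
  refine ⟨Function.End X, inferInstance, fun f => ?_, fa, fb, fc, so_ab, so_bc, not_so_ac⟩
  refine ⟨Function.invFun f, ?_⟩
  funext x
  exact Function.invFun_eq (f := f) ⟨x, rfl⟩

end Pool.Agent.Results.MP_d6d41b_al.StrongOConjugacyNotTransitive
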